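import Pool.Agent.Lib_helper95.REll.A1

/-! # Every pair is isomorphic to its dual; commutativity of the Hall product -/

open scoped BigOperators ComplexConjugate DirectSum
open Polynomial

namespace Pool.Agent.REll
variable {F : Type} [Field F]

/-- a functional on `F[X]/(Q)` without nonzero ideals in its kernel -/
theorem exists_functional (Q : F[X]) (hQ : Q ≠ 0) :
    ∃ l : (F[X] ⧸ Submodule.span F[X] {Q}) →ₗ[F] F, ∀ x, x ≠ 0 → ∃ y, l (x * y) ≠ 0 := by
  set P : F[X] := Q * C (Q.leadingCoeff)⁻¹ with hP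
  have hPm : P.Monic := monic_mul_leadingCoeff_inv hQ
  have hlc : (Q.leadingCoeff)⁻¹ ≠ 0 := inv_ne_zero (leadingCoeff_ne_zero.2 hQ)
  have hdvd : ∀ p, Q ∣ p → P ∣ p := by
    rintro _ ⟨r, rfl⟩
    refine ⟨C Q.leadingCoeff * r, ?_⟩
    rw [hP, mul_assoc, ← mul_assoc (C _) (C _), ← C_mul,
      inv_mul_cancel₀ (leadingCoeff_ne_zero.2 hQ), C_1, one_mul]
  have hdvd2 : ∀ p, P ∣ p → Q ∣ p := fun p h => (Dvd.intro _ hP.symm).trans h
  let mk : F[X] →ₗ[F] (F[X] ⧸ Submodule.span F[X] {Q}) :=
    (Ideal.Quotient.mkₐ F (Ideal.span {Q})).toLinearMap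
  have hmk : ∀ p, mk p = Ideal.Quotient.mk (Ideal.span {Q}) p := fun p => rfl
  have hmks : LinearMap.range mk = ⊤ := by
    rw [LinearMap.range_eq_top]
    exact Ideal.Quotient.mk_surjective
  obtain ⟨s, hs⟩ := mk.exists_rightInverse_of_surjective hmks
  let lc : F[X] →ₗ[F] F := (lcoeff F (P.natDegree - 1)) ∘ₗ (modByMonicHom P)
  have hlc0 : ∀ p, P ∣ p → lc p = 0 := by
    intro p hp
    show ((p %ₘ P).coeff (P.natDegree - 1)) = 0
    rw [(modByMonic_eq_zero_iff_dvd hPm).2 hp, coeff_zero]
  have hl : ∀ p, (lc ∘ₗ s) (mk p) = lc p := by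
    intro p
    have h1 : mk (s (mk p)) = mk p := LinearMap.congr_fun hs (mk p)
    have h2 : mk (s (mk p) - p) = 0 := by rw [map_sub, h1, sub_self]
    have h3 : Q ∣ (s (mk p) - p) := by
      rw [hmk, Ideal.Quotient.eq_zero_iff_mem, Ideal.mem_span_singleton] at h2
      exact h2
    have h4 := hlc0 _ (hdvd _ h3)
    rw [map_sub, sub_eq_zero] at h4
    exact h4
  refine ⟨lc ∘ₗ s, ?_⟩
  intro x hx
  obtain ⟨r, rfl⟩ := Ideal.Quotient.mk_surjective x
  have hr : r %ₘ P ≠ 0 := by
    intro h0
    apply hx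
    rw [Ideal.Quotient.eq_zero_iff_mem, Ideal.mem_span_singleton]
    exact hdvd2 _ ((modByMonic_eq_zero_iff_dvd hPm).1 h0)
  have hP1 : P ≠ 1 := by
    rintro h1
    apply hr
    rw [h1, modByMonic_one]
  have hdeg : (r %ₘ P).natDegree < P.natDegree := natDegree_modByMonic_lt r hPm hP1
  refine ⟨mk (X ^ (P.natDegree - 1 - (r %ₘ P).natDegree)), ?_⟩
  have h5 : (Ideal.Quotient.mk (Ideal.span {Q}) r : F[X] ⧸ Submodule.span F[X] {Q}) *
      mk (X ^ (P.natDegree - 1 - (r %ₘ P).natDegree)) =
      mk ((r %ₘ P) * X ^ (P.natDegree - 1 - (r %ₘ P).natDegree)) := by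
    rw [hmk, hmk, map_mul]
    congr 1
    rw [Ideal.Quotient.eq, Ideal.mem_span_singleton]
    apply hdvd2
    refine ⟨r /ₘ P, ?_⟩
    have h6 := modByMonic_add_div r P
    linear_combination -h6
  rw [h5, hl]
  set t : F[X] := (r %ₘ P) * X ^ (P.natDegree - 1 - (r %ₘ P).natDegree) with ht
  have h7 : t.natDegree = P.natDegree - 1 := by
    rw [ht, natDegree_mul_X_pow _ hr]
    omega
  have ht0 : t ≠ 0 := mul_ne_zero hr (pow_ne_zero _ X_ne_zero)
  have h8 : t %ₘ P = t := by
    rw [modByMonic_eq_self_iff hPm]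
    apply degree_lt_degree
    omega
  show ((t %ₘ P).coeff (P.natDegree - 1)) ≠ 0
  rw [h8, ← h7]
  exact leadingCoeff_ne_zero.2 ht0

/-- the cyclic module has a symmetric nondegenerate invariant form -/
theorem cyclic_form (Q : F[X]) (hQ : Q ≠ 0) :
    ∃ B : (F[X] ⧸ Submodule.span F[X] {Q}) →ₗ[F] (F[X] ⧸ Submodule.span F[X] {Q}) →ₗ[F] F,
      (∀ v, (∀ w, B v w = 0) → v = 0) ∧ ∀ v w, B ((X : F[X]) • v) w = B v ((X : F[X]) • w) := by
  obtain ⟨l, hl⟩ := exists_functional Q hQ
  refine ⟨(LinearMap.mul F _).compr₂ l, ?_, ?_⟩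
  · intro v hv
    by_contra h0
    obtain ⟨w, hw⟩ := hl v h0
    exact hw (hv w)
  · intro v w
    show l ((X : F[X]) • v * w) = l (v * (X : F[X]) • w)
    rw [mul_smul_comm, smul_mul_assoc]

/-- Every pair has a nondegenerate form for which `g` is self adjoint. -/
theorem exists_form {V : Type} [AddCommGroup V] [Module F V] [Module.Finite F V]
    (a : V →ₗ[F] V) :
    ∃ B : V →ₗ[F] V →ₗ[F] F, (∀ v, (∀ w, B v w = 0) → v = 0) ∧
      ∀ v w, B (a v) w = B v (a w) := by
  classical
  have htor : Module.IsTorsion F[X] (Module.AEval' a) :=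
    Module.AEval.isTorsion_of_finiteDimensional F V a
  obtain ⟨ι, hι, p, hp, e, ⟨φ⟩⟩ := Module.equiv_directSum_of_isTorsion htor
  have hc := fun i => cyclic_form (p i ^ e i) (pow_ne_zero _ (hp i).ne_zero)
  choose B hB1 hB2 using hc
  let c : ∀ i, V →ₗ[F] (F[X] ⧸ Submodule.span F[X] {p i ^ e i}) := fun i =>
    ((DirectSum.component F[X] ι (fun i => F[X] ⧸ Submodule.span F[X] {p i ^ e i}) i
      ∘ₗ φ.toLinearMap).restrictScalars F) ∘ₗ (Module.AEval'.of a).toLinearMap
  have hcX : ∀ i v, c i (a v) = (X : F[X]) • c i v := by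
    intro i v
    show DirectSum.component F[X] ι (fun i => F[X] ⧸ Submodule.span F[X] {p i ^ e i}) i
      (φ (Module.AEval'.of a (a v))) = (X : F[X]) •
      DirectSum.component F[X] ι (fun i => F[X] ⧸ Submodule.span F[X] {p i ^ e i}) i
      (φ (Module.AEval'.of a v))
    rw [← Module.AEval'.X_smul_of, map_smul, map_smul]
  refine ⟨∑ i, (B i).compl₁₂ (c i) (c i), ?_, ?_⟩
  · intro v hv
    have h1 : ∀ i, c i v = 0 := by
      intro i
      apply hB1 i
      intro w
      let w' : V := (Module.AEval'.of a).symm (φ.symm (DirectSum.lof F[X] ι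
        (fun i => F[X] ⧸ Submodule.span F[X] {p i ^ e i}) i w))
      have h2 := hv w'
      rw [LinearMap.sum_apply, LinearMap.sum_apply, Finset.sum_eq_single i] at h2
      · rw [LinearMap.compl₁₂_apply] at h2
        have h3 : c i w' = w := by
          show DirectSum.component F[X] ι (fun i => F[X] ⧸ Submodule.span F[X] {p i ^ e i}) i
            (φ (Module.AEval'.of a ((Module.AEval'.of a).symm (φ.symm (DirectSum.lof F[X] ι
        (fun i => F[X] ⧸ Submodule.span F[X] {p i ^ e i}) i w))))) = w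
          rw [LinearEquiv.apply_symm_apply, LinearEquiv.apply_symm_apply]
          exact DirectSum.component.lof_self _ _ _
        rw [h3] at h2
        exact h2
      · intro j _ hj
        rw [LinearMap.compl₁₂_apply]
        have h3 : c j w' = 0 := by
          show DirectSum.component F[X] ι (fun i => F[X] ⧸ Submodule.span F[X] {p i ^ e i}) j
            (φ (Module.AEval'.of a ((Module.AEval'.of a).symm (φ.symm (DirectSum.lof F[X] ι
        (fun i => F[X] ⧸ Submodule.span F[X] {p i ^ e i}) i w))))) = 0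
          rw [LinearEquiv.apply_symm_apply, LinearEquiv.apply_symm_apply,
            DirectSum.component.of, dif_neg (Ne.symm hj)]
        rw [h3, map_zero]
      · intro h; exact absurd (Finset.mem_univ i) h
    have h4 : φ (Module.AEval'.of a v) = 0 := by
      refine DirectSum.ext_component F[X] ?_
      intro i
      rw [map_zero]
      exact h1 i
    have h5 : Module.AEval'.of a v = 0 := by
      rw [← φ.map_eq_zero_iff]; exact h4
    exact (LinearEquiv.map_eq_zero_iff _).1 h5
  · intro v w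
    rw [LinearMap.sum_apply, LinearMap.sum_apply, LinearMap.sum_apply, LinearMap.sum_apply]
    refine Finset.sum_congr rfl fun i _ => ?_
    rw [LinearMap.compl₁₂_apply, LinearMap.compl₁₂_apply, hcX, hcX, hB2]

/-- Every pair `(V, g)` is isomorphic to its dual `(V*, gᵗ)`. -/
theorem exists_selfdual {V : Type} [AddCommGroup V] [Module F V] [Finite V]
    (g : V ≃ₗ[F] V) : ∃ e : V ≃ₗ[F] Module.Dual F V, ∀ v, e (g v) = g.dualMap (e v) := by
  have : Module.Finite F V := Module.Finite.of_finite
  obtain ⟨B, hB1, hB2⟩ := exists_form (g : V →ₗ[F] V)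
  have hinj : Function.Injective B := by
    rw [injective_iff_map_eq_zero]
    intro v hv
    apply hB1
    intro w
    rw [hv]; rfl
  refine ⟨LinearMap.linearEquivOfInjective B hinj (Subspace.dual_finrank_eq).symm, ?_⟩
  intro v
  ext w
  exact hB2 v w

instance finite_dual {V : Type} [AddCommGroup V] [Module F V] [Finite V] :
    Finite (Module.Dual F V) := by
  obtain ⟨e, _⟩ := exists_selfdual (LinearEquiv.refl F V)
  exact Finite.of_equiv _ e.toEquiv

theorem cf_dual (f : CF F) {V : Type} [AddCommGroup V] [Module F V] [Finite V]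
    (g : V ≃ₗ[F] V) : f V g = f (Module.Dual F V) g.dualMap := by
  obtain ⟨e, he⟩ := exists_selfdual g
  exact f.inv' _ _ e _ _ he

/-- the annihilator of a stable subspace -/
noncomputable def Stab.ann {V : Type} [AddCommGroup V] [Module F V] [Finite V] (g : V ≃ₗ[F] V)
    (W : Stab g) : Stab g.dualMap :=
  Stab.mk' _ W.1.dualAnnihilator (by
    intro φ hφ
    rw [Submodule.mem_dualAnnihilator] at hφ ⊢
    intro w hw
    exact hφ _ (W.mem hw))

theorem Stab.ann_bij {V : Type} [AddCommGroup V] [Module F V] [Finite V] (g : V ≃ₗ[F] V) :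
    Function.Bijective (Stab.ann g) := by
  have : Module.Finite F V := Module.Finite.of_finite
  constructor
  · intro W W' h
    apply Subtype.ext
    have h1 : W.1.dualAnnihilator = W'.1.dualAnnihilator := congrArg Subtype.val h
    exact Subspace.dualAnnihilator_inj.1 h1
  · intro Y
    refine ⟨Stab.mk' g Y.1.dualCoannihilator ?_, ?_⟩
    · intro v hv
      rw [Submodule.mem_dualCoannihilator] at hv ⊢
      intro φ hφ
      exact hv _ (Y.mem hφ)
    · apply Subtype.ext
      exact Subspace.dualCoannihilator_dualAnnihilator_eq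

namespace CF

theorem hall_comm (f h : CF F) : f * h = h * f := by
  ext V _ _ _ g
  have : Module.Finite F V := Module.Finite.of_finite
  rw [cf_dual (h * f) g, mul_apply, mul_apply]
  refine finsum_eq_of_bijective (Stab.ann g) (Stab.ann_bij g) ?_
  intro W
  have e1 : h (V ⧸ W.1) (quo g W) = h (Stab.ann g W).1 (sub g.dualMap (Stab.ann g W)) := by
    rw [cf_dual h (quo g W)]
    apply h.inv' _ _ (Submodule.dualQuotEquivDualAnnihilator W.1)
    intro φ
    apply Subtype.ext
    ext v
    rfl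
  have e2 : f W.1 (sub g W) = f (Module.Dual F V ⧸ (Stab.ann g W).1)
      (quo g.dualMap (Stab.ann g W)) := by
    rw [cf_dual f (sub g W)]
    symm
    apply f.inv' _ _ (Subspace.quotAnnihilatorEquiv W.1)
    intro φ
    obtain ⟨φ, rfl⟩ := Submodule.Quotient.mk_surjective _ φ
    ext w
    rfl
  rw [e1, e2, mul_comm]

end CF
end Pool.Agent.REll
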