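import Pool.Agent.Lib_helper95.REll.A2
import Pool.Agent.Lib_helper15.REll_CYC

/-! # A primitive function vanishing on primary cyclic pairs is zero -/

open scoped BigOperators ComplexConjugate DirectSum
open Polynomial

namespace Pool.Agent.REll
variable {F : Type} [Field F]

namespace Ind

section Hom
variable {V W : Type} [AddCommGroup V] [Module F V] [AddCommGroup W] [Module F W]

/-- homomorphisms of pairs -/
def H (a : V →ₗ[F] V) (b : W →ₗ[F] W) : Submodule F (V →ₗ[F] W) where
  carrier := {φ | ∀ v, φ (a v) = b (φ v)}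
  add_mem' := by
    intro φ ψ h1 h2 v
    rw [LinearMap.add_apply, LinearMap.add_apply, h1 v, h2 v, map_add]
  zero_mem' := by
    intro v
    rw [LinearMap.zero_apply, LinearMap.zero_apply, map_zero]
  smul_mem' := by
    intro c φ h v
    rw [LinearMap.smul_apply, LinearMap.smul_apply, h v, map_smul]

theorem mem_H {a : V →ₗ[F] V} {b : W →ₗ[F] W} {φ : V →ₗ[F] W} :
    φ ∈ H a b ↔ ∀ v, φ (a v) = b (φ v) := Iff.rfl

end Hom

section ineq
variable {M N L : Type} [AddCommGroup M] [Module F M] [AddCommGroup N] [Module F N]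
  [AddCommGroup L] [Module F L] [Module.Finite F M] [Module.Finite F N] [Module.Finite F L]

theorem ker_le (P : Submodule F M) (f : M →ₗ[F] N) (s : M →ₗ[F] L)
    (Q : Submodule F N) (R : Submodule F L) (h1 : ∀ x ∈ P, f x ∈ Q)
    (h2 : ∀ x ∈ P, f x = 0 → s x ∈ R) (h3 : ∀ x ∈ P, f x = 0 → s x = 0 → x = 0) :
    Module.finrank F (LinearMap.ker (f.restrict h1)) ≤ Module.finrank F R := by
  have hk : ∀ x : LinearMap.ker (f.restrict h1), f x.1.1 = 0 := by
    intro x
    exact congrArg Subtype.val (LinearMap.mem_ker.1 x.2)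
  let t : LinearMap.ker (f.restrict h1) →ₗ[F] R :=
    { toFun := fun x => ⟨s x.1.1, h2 _ x.1.2 (hk x)⟩
      map_add' := by
        intro x y
        apply Subtype.ext
        exact map_add s _ _
      map_smul' := by
        intro c x
        apply Subtype.ext
        exact map_smul s _ _ }
  apply LinearMap.finrank_le_finrank_of_injective (f := t)
  rw [injective_iff_map_eq_zero]
  intro x hx
  apply Subtype.ext
  apply Subtype.ext
  exact h3 _ x.1.2 (hk x) (congrArg Subtype.val hx)

theorem finrank_le_add (P : Submodule F M) (f : M →ₗ[F] N) (s : M →ₗ[F] L)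
    (Q : Submodule F N) (R : Submodule F L) (h1 : ∀ x ∈ P, f x ∈ Q)
    (h2 : ∀ x ∈ P, f x = 0 → s x ∈ R) (h3 : ∀ x ∈ P, f x = 0 → s x = 0 → x = 0) :
    Module.finrank F P ≤ Module.finrank F Q + Module.finrank F R := by
  have h4 := ker_le P f s Q R h1 h2 h3
  have h5 := LinearMap.finrank_range_add_finrank_ker (f.restrict h1)
  have h6 := Submodule.finrank_le (LinearMap.range (f.restrict h1))
  omega

theorem finrank_lt_add (P : Submodule F M) (f : M →ₗ[F] N) (s : M →ₗ[F] L)
    (Q : Submodule F N) (R : Submodule F L) (h1 : ∀ x ∈ P, f x ∈ Q)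
    (h2 : ∀ x ∈ P, f x = 0 → s x ∈ R) (h3 : ∀ x ∈ P, f x = 0 → s x = 0 → x = 0)
    (h0 : ∃ q ∈ Q, ∀ x ∈ P, f x ≠ q) :
    Module.finrank F P < Module.finrank F Q + Module.finrank F R := by
  have h4 := ker_le P f s Q R h1 h2 h3
  have h5 := LinearMap.finrank_range_add_finrank_ker (f.restrict h1)
  have h6 : LinearMap.range (f.restrict h1) < ⊤ := by
    rw [lt_top_iff_ne_top]
    intro htop
    obtain ⟨q, hq, hne⟩ := h0
    have h7 : (⟨q, hq⟩ : Q) ∈ LinearMap.range (f.restrict h1) := by rw [htop]; trivial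
    obtain ⟨x, hx⟩ := h7
    exact hne x.1 x.2 (congrArg Subtype.val hx)
  have h8 := Submodule.finrank_lt h6.ne
  omega

end ineq

section ext
variable {A B : Type} [AddCommGroup A] [Module F A] [Finite A]
  [AddCommGroup B] [Module F B] [Finite B] (α : A ≃ₗ[F] A) (β : B ≃ₗ[F] B) (u : B →ₗ[F] A)

/-- homs of pairs, for automorphisms -/
noncomputable def hd {V W : Type} [AddCommGroup V] [Module F V] [AddCommGroup W] [Module F W]
    (g : V ≃ₗ[F] V) (h : W ≃ₗ[F] W) : ℕ :=
  Module.finrank F (H (g : V →ₗ[F] V) (h : W →ₗ[F] W))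

theorem hd_EE : hd (tri α β u) (tri α β u) ≤ hd α (tri α β u) + hd β (tri α β u) := by
  have : Module.Finite F A := Module.Finite.of_finite
  have : Module.Finite F B := Module.Finite.of_finite
  refine finrank_le_add _ (LinearMap.lcomp F (B × A) (LinearMap.inr F B A))
    (LinearMap.lcomp F (B × A) (LinearMap.inl F B A)) _ _ ?_ ?_ ?_
  · intro φ hφ a
    show φ (0, α a) = tri α β u (φ (0, a))
    have := hφ (0, a)
    rw [← show tri α β u (φ (0, a)) = (tri α β u : (B × A) →ₗ[F] (B × A)) (φ (0, a)) from rfl] at this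
    rw [← this]
    show φ (0, α a) = φ (tri α β u (0, a))
    rw [tri_apply]
    simp
  · intro φ hφ h0 b
    have h1 : ∀ a, φ (0, a) = 0 := fun a => LinearMap.congr_fun h0 a
    show φ (β b, 0) = tri α β u (φ (b, 0))
    have := hφ (b, 0)
    rw [← show tri α β u (φ (b, 0)) = (tri α β u : (B × A) →ₗ[F] (B × A)) (φ (b, 0)) from rfl] at this
    rw [← this]
    show φ (β b, 0) = φ (tri α β u (b, 0))
    rw [tri_apply]
    have h2 : ((β b, α 0 + u b) : B × A) = (β b, 0) + (0, u b) := by
      simp
    show φ (β b, 0) = φ (β b, α 0 + u b)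
    rw [h2, map_add, h1, add_zero]
  · intro φ hφ h0 h1
    apply LinearMap.ext
    rintro ⟨b, a⟩
    have h2 : ((b, a) : B × A) = (b, 0) + (0, a) := by simp
    have h3 : φ (0, a) = 0 := LinearMap.congr_fun h0 a
    have h4 : φ (b, 0) = 0 := LinearMap.congr_fun h1 b
    rw [h2, map_add, h3, h4, add_zero, LinearMap.zero_apply]

theorem hd_CE {C : Type} [AddCommGroup C] [Module F C] [Finite C] (γ : C ≃ₗ[F] C) :
    hd γ (tri α β u) ≤ hd γ β + hd γ α := by
  have : Module.Finite F A := Module.Finite.of_finite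
  have : Module.Finite F B := Module.Finite.of_finite
  have : Module.Finite F C := Module.Finite.of_finite
  refine finrank_le_add _ (LinearMap.compRight F (LinearMap.fst F B A))
    (LinearMap.compRight F (LinearMap.snd F B A)) _ _ ?_ ?_ ?_
  · intro φ hφ c
    show (φ (γ c)).1 = β (φ c).1
    have h1 : φ (γ c) = tri α β u (φ c) := hφ c
    rw [h1, tri_apply]
  · intro φ hφ h0 c
    show (φ (γ c)).2 = α (φ c).2
    have h1 : φ (γ c) = tri α β u (φ c) := hφ c
    have h2 : (φ c).1 = 0 := LinearMap.congr_fun h0 c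
    rw [h1, tri_apply, h2]
    show α (φ c).2 + u 0 = α (φ c).2
    rw [map_zero, add_zero]
  · intro φ hφ h0 h1
    apply LinearMap.ext
    intro c
    exact Prod.ext (LinearMap.congr_fun h0 c) (LinearMap.congr_fun h1 c)

/-- `tri α β u` is a split extension -/
def Split : Prop := ∃ w : B →ₗ[F] A, ∀ b, w (β b) = α (w b) + u b

theorem hd_BE (h : ¬ Split α β u) : hd β (tri α β u) < hd β β + hd β α := by
  have : Module.Finite F A := Module.Finite.of_finite
  have : Module.Finite F B := Module.Finite.of_finite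
  refine finrank_lt_add _ (LinearMap.compRight F (LinearMap.fst F B A))
    (LinearMap.compRight F (LinearMap.snd F B A)) _ _ ?_ ?_ ?_ ?_
  · intro φ hφ c
    show (φ (β c)).1 = β (φ c).1
    have h1 : φ (β c) = tri α β u (φ c) := hφ c
    rw [h1, tri_apply]
  · intro φ hφ h0 c
    show (φ (β c)).2 = α (φ c).2
    have h1 : φ (β c) = tri α β u (φ c) := hφ c
    have h2 : (φ c).1 = 0 := LinearMap.congr_fun h0 c
    rw [h1, tri_apply, h2]
    show α (φ c).2 + u 0 = α (φ c).2
    rw [map_zero, add_zero]
  · intro φ hφ h0 h1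
    apply LinearMap.ext
    intro c
    exact Prod.ext (LinearMap.congr_fun h0 c) (LinearMap.congr_fun h1 c)
  · refine ⟨LinearMap.id, fun v => rfl, ?_⟩
    intro φ hφ h0
    apply h
    refine ⟨(LinearMap.snd F B A) ∘ₗ φ, ?_⟩
    intro b
    show (φ (β b)).2 = α (φ b).2 + u b
    have h1 : φ (β b) = tri α β u (φ b) := hφ b
    have h2 : (φ b).1 = b := LinearMap.congr_fun h0 b
    rw [h1, tri_apply, h2]

theorem hd_SS : hd α α + hd α β + hd β α + hd β β ≤ hd (tri α β 0) (tri α β 0) := by
  have : Module.Finite F A := Module.Finite.of_finite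
  have : Module.Finite F B := Module.Finite.of_finite
  let α' : A →ₗ[F] A := α
  let β' : B →ₗ[F] B := β
  let Φ : (H α' α' × H α' β') × (H β' α' × H β' β') →ₗ[F]
      H (tri α β 0 : (B × A) →ₗ[F] (B × A)) (tri α β 0 : (B × A) →ₗ[F] (B × A)) :=
    { toFun := fun p => ⟨LinearMap.prod (LinearMap.coprod p.2.2.1 p.1.2.1)
          (LinearMap.coprod p.2.1.1 p.1.1.1), by
        rintro ⟨b, a⟩
        have h1 : p.1.1.1 (α a) = α (p.1.1.1 a) := p.1.1.2 a
        have h2 : p.1.2.1 (α a) = β (p.1.2.1 a) := p.1.2.2 a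
        have h3 : p.2.1.1 (β b) = α (p.2.1.1 b) := p.2.1.2 b
        have h4 : p.2.2.1 (β b) = β (p.2.2.1 b) := p.2.2.2 b
        show ((p.2.2.1 (β b) + p.1.2.1 (α a + 0), p.2.1.1 (β b) + p.1.1.1 (α a + 0)) : B × A) =
          (β (p.2.2.1 b + p.1.2.1 a), α (p.2.1.1 b + p.1.1.1 a) + 0)
        rw [add_zero, add_zero, h1, h2, h3, h4, map_add, map_add]⟩
      map_add' := by
        intro p q
        apply Subtype.ext
        apply LinearMap.ext
        rintro ⟨b, a⟩
        apply Prod.ext
        · show (p.2.2.1 b + q.2.2.1 b) + (p.1.2.1 a + q.1.2.1 a) =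
            (p.2.2.1 b + p.1.2.1 a) + (q.2.2.1 b + q.1.2.1 a)
          abel
        · show (p.2.1.1 b + q.2.1.1 b) + (p.1.1.1 a + q.1.1.1 a) =
            (p.2.1.1 b + p.1.1.1 a) + (q.2.1.1 b + q.1.1.1 a)
          abel
      map_smul' := by
        intro c p
        apply Subtype.ext
        apply LinearMap.ext
        rintro ⟨b, a⟩
        apply Prod.ext
        · show c • p.2.2.1 b + c • p.1.2.1 a = c • (p.2.2.1 b + p.1.2.1 a)
          rw [smul_add]
        · show c • p.2.1.1 b + c • p.1.1.1 a = c • (p.2.1.1 b + p.1.1.1 a)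
          rw [smul_add] }
  have hinj : Function.Injective Φ := by
    rw [injective_iff_map_eq_zero]
    rintro ⟨⟨x, y⟩, ⟨z, w⟩⟩ h0
    have h1 : ∀ b a, ((w.1 b + y.1 a, z.1 b + x.1 a) : B × A) = 0 := by
      intro b a
      exact LinearMap.congr_fun (congrArg Subtype.val h0) (b, a)
    have hx : x = 0 := by
      apply Subtype.ext
      apply LinearMap.ext
      intro a
      have := congrArg Prod.snd (h1 0 a)
      simpa using this
    have hy : y = 0 := by
      apply Subtype.ext
      apply LinearMap.ext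
      intro a
      have := congrArg Prod.fst (h1 0 a)
      simpa using this
    have hz : z = 0 := by
      apply Subtype.ext
      apply LinearMap.ext
      intro b
      have := congrArg Prod.snd (h1 b 0)
      simpa using this
    have hw : w = 0 := by
      apply Subtype.ext
      apply LinearMap.ext
      intro b
      have := congrArg Prod.fst (h1 b 0)
      simpa using this
    rw [hx, hy, hz, hw]
    rfl
  have h := LinearMap.finrank_le_finrank_of_injective hinj
  rw [Module.finrank_prod, Module.finrank_prod, Module.finrank_prod] at h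
  have e1 : hd α α = Module.finrank F (H α' α') := rfl
  have e2 : hd α β = Module.finrank F (H α' β') := rfl
  have e3 : hd β α = Module.finrank F (H β' α') := rfl
  have e4 : hd β β = Module.finrank F (H β' β') := rfl
  have e5 : hd (tri α β (0 : B →ₗ[F] A)) (tri α β 0) =
    Module.finrank F (H (tri α β 0 : (B × A) →ₗ[F] (B × A)) (tri α β 0 : (B × A) →ₗ[F] (B × A))) :=
    rfl
  rw [e1, e2, e3, e4, e5]
  omega

theorem hd_lt (h : ¬ Split α β u) :
    hd (tri α β u) (tri α β u) < hd (tri α β 0) (tri α β 0) := by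
  have h1 := hd_EE α β u
  have h2 := hd_CE α β u α
  have h3 := hd_BE α β u h
  have h4 := hd_SS α β
  omega

theorem split_value (k : CF F) (h : Split α β u) :
    k (B × A) (tri α β u) = k (B × A) (tri α β 0) := by
  obtain ⟨w, hw⟩ := h
  symm
  let e : (B × A) ≃ₗ[F] (B × A) := LinearEquiv.skewProd (LinearEquiv.refl F B)
    (LinearEquiv.refl F A) w
  apply k.inv' _ _ e
  rintro ⟨b, a⟩
  rw [tri_apply, tri_apply]
  show ((β b, (α a + 0) + w (β b)) : B × A) = (β b, α (a + w b) + u b)
  rw [hw, add_zero, map_add, add_assoc]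

end ext

/-- invariance of `hd` -/
theorem hd_congr {V V' : Type} [AddCommGroup V] [Module F V] [AddCommGroup V'] [Module F V']
    (e : V ≃ₗ[F] V') (g : V ≃ₗ[F] V) (g' : V' ≃ₗ[F] V') (he : ∀ v, e (g v) = g' (e v)) :
    hd g g = hd g' g' := by
  have he' : ∀ v, e.symm (g' v) = g (e.symm v) := by
    intro v
    apply e.injective
    rw [he]; simp
  unfold hd
  refine LinearEquiv.finrank_eq (LinearEquiv.ofSubmodules (LinearEquiv.conj e) _ _ ?_)
  apply le_antisymm
  · rintro _ ⟨φ, hφ, rfl⟩ v
    have h1 : ∀ v, φ (g v) = g (φ v) := hφ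
    show e (φ (e.symm (g' v))) = g' (e (φ (e.symm v)))
    rw [he', h1, he]
  · intro ψ hψ
    have h1 : ∀ v, ψ (g' v) = g' (ψ v) := hψ
    refine ⟨(LinearEquiv.conj e).symm ψ, ?_, (LinearEquiv.conj e).apply_symm_apply ψ⟩
    intro v
    show e.symm (ψ (e (g v))) = g (e.symm (ψ (e v)))
    rw [he, h1, he']

end Ind

/-- Indecomposable pairs are cyclic and primary. -/
theorem cyclic_or_decomposable {V : Type} [AddCommGroup V] [Module F V] [Finite V]
    (g : V ≃ₗ[F] V) (hV : 0 < Module.finrank F V) :
    ((∃ v, IsCyc g v) ∧ IsPrimePow (cp g)) ∨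
      ∃ W1 W2 : Stab g, IsCompl W2.1 W1.1 ∧ W1.1 ≠ ⊥ ∧ W2.1 ≠ ⊥ := by
  classical
  have : Module.Finite F V := Module.Finite.of_finite
  set a : V →ₗ[F] V := (g : V →ₗ[F] V) with ha
  have htor : Module.IsTorsion F[X] (Module.AEval' a) :=
    Module.AEval.isTorsion_of_finiteDimensional F V a
  obtain ⟨ι, hι, p, hp, e, ⟨φ⟩⟩ := Module.equiv_directSum_of_isTorsion htor
  let N : ι → Type := fun i => F[X] ⧸ Submodule.span F[X] {p i ^ e i}
  let c : ∀ i, V →ₗ[F] N i := fun i =>
    ((DirectSum.component F[X] ι (fun i => F[X] ⧸ Submodule.span F[X] {p i ^ e i}) i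
      ∘ₗ φ.toLinearMap).restrictScalars F) ∘ₗ (Module.AEval'.of a).toLinearMap
  let l : ∀ i, N i →ₗ[F] V := fun i =>
    (Module.AEval'.of a).symm.toLinearMap ∘ₗ
      ((φ.symm.toLinearMap ∘ₗ (DirectSum.lof F[X] ι
        (fun i => F[X] ⧸ Submodule.span F[X] {p i ^ e i}) i)).restrictScalars F)
  have hcX : ∀ i v, c i (g v) = (X : F[X]) • c i v := by
    intro i v
    show DirectSum.component F[X] ι (fun i => F[X] ⧸ Submodule.span F[X] {p i ^ e i}) i
      (φ (Module.AEval'.of a (a v))) = (X : F[X]) •
      DirectSum.component F[X] ι (fun i => F[X] ⧸ Submodule.span F[X] {p i ^ e i}) i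
      (φ (Module.AEval'.of a v))
    rw [← Module.AEval'.X_smul_of, map_smul, map_smul]
  have hlX : ∀ i n, l i ((X : F[X]) • n) = g (l i n) := by
    intro i n
    show (Module.AEval'.of a).symm (φ.symm (DirectSum.lof F[X] ι
        (fun i => F[X] ⧸ Submodule.span F[X] {p i ^ e i}) i ((X : F[X]) • n))) =
      a ((Module.AEval'.of a).symm (φ.symm (DirectSum.lof F[X] ι
        (fun i => F[X] ⧸ Submodule.span F[X] {p i ^ e i}) i n)))
    rw [map_smul, map_smul]
    exact Module.AEval.of_symm_X_smul a _
  have hlr : ∀ i (r : F[X]) n, l i (r • n) = Cyc.pv g (l i n) r := by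
    intro i r n
    show (Module.AEval'.of a).symm (φ.symm (DirectSum.lof F[X] ι
        (fun i => F[X] ⧸ Submodule.span F[X] {p i ^ e i}) i (r • n))) = _
    rw [map_smul, map_smul]
    exact Module.AEval.of_symm_smul a r _
  have hcl : ∀ i n, c i (l i n) = n := by
    intro i n
    show DirectSum.component F[X] ι (fun i => F[X] ⧸ Submodule.span F[X] {p i ^ e i}) i
            (φ (Module.AEval'.of a ((Module.AEval'.of a).symm (φ.symm (DirectSum.lof F[X] ι
        (fun i => F[X] ⧸ Submodule.span F[X] {p i ^ e i}) i n))))) = n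
    rw [LinearEquiv.apply_symm_apply, LinearEquiv.apply_symm_apply]
    exact DirectSum.component.lof_self _ _ _
  have hcl' : ∀ i j n, i ≠ j → c j (l i n) = 0 := by
    intro i j n hij
    show DirectSum.component F[X] ι (fun i => F[X] ⧸ Submodule.span F[X] {p i ^ e i}) j
            (φ (Module.AEval'.of a ((Module.AEval'.of a).symm (φ.symm (DirectSum.lof F[X] ι
        (fun i => F[X] ⧸ Submodule.span F[X] {p i ^ e i}) i n))))) = 0
    rw [LinearEquiv.apply_symm_apply, LinearEquiv.apply_symm_apply,
            DirectSum.component.of, dif_neg hij]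
  have hinj : ∀ v, (∀ i, c i v = 0) → v = 0 := by
    intro v h1
    have h4 : φ (Module.AEval'.of a v) = 0 := by
      refine DirectSum.ext_component F[X] ?_
      intro i
      rw [map_zero]
      exact h1 i
    have h5 : Module.AEval'.of a v = 0 := by
      rw [← φ.map_eq_zero_iff]; exact h4
    exact (LinearEquiv.map_eq_zero_iff _).1 h5
  -- a nontrivial component
  obtain ⟨v0, hv0⟩ : ∃ v : V, v ≠ 0 := by
    have : Nontrivial V := Module.finrank_pos_iff.1 hV
    exact exists_ne 0
  obtain ⟨i0, hi0⟩ : ∃ i, c i v0 ≠ 0 := by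
    by_contra hcon
    push Not at hcon
    exact hv0 (hinj v0 hcon)
  by_cases hj : ∃ j, j ≠ i0 ∧ ∃ n : N j, n ≠ 0
  · right
    obtain ⟨j, hj, n, hn⟩ := hj
    refine ⟨Stab.mk' g (LinearMap.range (l i0)) ?_, Stab.mk' g (LinearMap.ker (c i0)) ?_,
      ?_, ?_, ?_⟩
    · rintro _ ⟨m, rfl⟩
      exact ⟨(X : F[X]) • m, hlX i0 m⟩
    · intro v hv
      rw [LinearMap.mem_ker] at hv ⊢
      rw [hcX, hv, smul_zero]
    · constructor
      · rw [Submodule.disjoint_def]
        rintro _ hx ⟨m, rfl⟩
        have hx' : c i0 (l i0 m) = 0 := hx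
        rw [hcl] at hx'
        rw [hx', map_zero]
      · rw [codisjoint_iff]
        apply eq_top_iff.2
        intro v _
        rw [Submodule.mem_sup]
        refine ⟨v - l i0 (c i0 v), ?_, l i0 (c i0 v), ⟨_, rfl⟩, by simp⟩
        show c i0 (v - l i0 (c i0 v)) = 0
        rw [map_sub, hcl, sub_self]
    · intro hbot
      have h1 : l i0 (c i0 v0) ∈ (Stab.mk' g (LinearMap.range (l i0)) (by
        rintro _ ⟨m, rfl⟩
        exact ⟨(X : F[X]) • m, hlX i0 m⟩)).1 := ⟨_, rfl⟩
      rw [hbot, Submodule.mem_bot] at h1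
      apply hi0
      rw [← hcl i0 (c i0 v0), h1, map_zero]
    · intro hbot
      have h1 : l j n ∈ (LinearMap.ker (c i0)) := hcl' j i0 n hj
      have h2 : l j n ∈ (⊥ : Submodule F V) := by
        rw [← hbot]
        exact h1
      rw [Submodule.mem_bot] at h2
      apply hn
      rw [← hcl j n, h2, map_zero]
  · left
    push Not at hj
    have hall : ∀ v, l i0 (c i0 v) = v := by
      intro v
      rw [← sub_eq_zero]
      apply hinj
      intro i
      by_cases hi : i = i0
      · subst hi
        rw [map_sub, hcl, sub_self]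
      · exact hj i hi _
    set Q : F[X] := p i0 ^ e i0 with hQ
    have hQ0 : Q ≠ 0 := pow_ne_zero _ (hp i0).ne_zero
    let one : N i0 := Submodule.Quotient.mk (1 : F[X])
    have hmk : ∀ r : F[X], (Submodule.Quotient.mk r : N i0) = r • one := by
      intro r
      show (Submodule.Quotient.mk r : N i0) = r • Submodule.Quotient.mk (1 : F[X])
      rw [← Submodule.Quotient.mk_smul, smul_eq_mul, mul_one]
    have hpv : ∀ r : F[X], l i0 (Submodule.Quotient.mk r) = Cyc.pv g (l i0 one) r := by
      intro r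
      rw [hmk, hlr]
    have hcyc : IsCyc g (l i0 one) := by
      rw [Cyc.isCyc_iff]
      intro w
      obtain ⟨r, hr⟩ := Submodule.Quotient.mk_surjective _ (c i0 w)
      refine ⟨r, ?_⟩
      rw [← hpv, hr, hall]
    refine ⟨⟨_, hcyc⟩, ?_⟩
    have key : ∀ r : F[X], cp g ∣ r ↔ Q ∣ r := by
      intro r
      rw [← Cyc.pv_eq_zero_iff hcyc, ← hpv]
      constructor
      · intro h0
        have h1 : (Submodule.Quotient.mk r : N i0) = 0 := by
          rw [← hcl i0 (Submodule.Quotient.mk r), h0, map_zero]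
        rw [Submodule.Quotient.mk_eq_zero] at h1
        exact Ideal.mem_span_singleton.1 h1
      · intro h0
        have h1 : (Submodule.Quotient.mk r : N i0) = 0 := by
          rw [Submodule.Quotient.mk_eq_zero]
          exact Ideal.mem_span_singleton.2 h0
        rw [h1, map_zero]
    have hassoc : Associated Q (cp g) :=
      associated_of_dvd_dvd ((key (cp g)).1 dvd_rfl) ((key Q).2 dvd_rfl)
    have hcp := cp_monic g
    have he : 0 < e i0 := by
      rcases Nat.eq_zero_or_pos (e i0) with h0 | h0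
      · exfalso
        have h1 : IsUnit (cp g) := by
          rw [hQ, h0, pow_zero] at hassoc
          exact hassoc.isUnit isUnit_one
        have h2 := natDegree_eq_zero_of_isUnit h1
        rw [hcp.2.1] at h2
        omega
      · exact h0
    set p' : F[X] := p i0 * C (p i0).leadingCoeff⁻¹ with hp'
    have hp'm : p'.Monic := monic_mul_leadingCoeff_inv (hp i0).ne_zero
    have hp'a : Associated (p i0) p' :=
      ⟨Units.map C.toMonoidHom (Units.mk0 _ (inv_ne_zero (leadingCoeff_ne_zero.2 (hp i0).ne_zero))), rfl⟩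
    refine ⟨p', e i0, hp'a.prime_iff.1 (hp i0).prime, he, ?_⟩
    apply eq_of_monic_of_associated (hp'm.pow _) hcp.1
    exact (hp'a.pow_pow.symm).trans hassoc

open Ind in
theorem eq_zero_of_isPrim [Finite F] (k : CF F) (hk : CF.IsPrim k)
    (h : ∀ P : F[X], P.Monic → P.coeff 0 ≠ 0 → IsPrimePow P → val k P = 0)
    (V : Type) [AddCommGroup V] [Module F V] [Finite V] (g : V ≃ₗ[F] V)
    (hV : 0 < Module.finrank F V) : k V g = 0 := by
  classical
  have main : ∀ (n : ℕ) (V : Type) [AddCommGroup V] [Module F V] [Finite V] (g : V ≃ₗ[F] V),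
      0 < Module.finrank F V → hd g g = n → k V g = 0 := by
    intro n
    induction n using Nat.strong_induction_on with
    | _ n ih =>
      intro V _ _ _ g hV hn
      have : Module.Finite F V := Module.Finite.of_finite
      rcases cyclic_or_decomposable g hV with ⟨⟨v, hv⟩, hpp⟩ | ⟨W1, W2, hc, h1, h2⟩
      · obtain ⟨hm, -, h0⟩ := cp_monic g
        rw [val_eq k g v hv]
        exact h _ hm h0 hpp
      · let α := sub g W1
        let β := sub g W2
        let e : (W2.1 × W1.1) ≃ₗ[F] V := Submodule.prodEquivOfIsCompl W2.1 W1.1 hc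
        have he : ∀ x, e (tri α β 0 x) = g (e x) := by
          rintro ⟨x, y⟩
          rw [tri_apply]
          show ((g x : V) + (((α y + (0 : W1.1)) : W1.1) : V)) = g ((x : V) + (y : V))
          rw [add_zero, map_add]
          rfl
        have hkg : k V g = k (W2.1 × W1.1) (tri α β 0) := (k.inv' _ _ e _ _ he).symm
        have hhd : hd (tri α β (0 : W2.1 →ₗ[F] W1.1)) (tri α β 0) = n := by
          rw [← hn]
          exact hd_congr e _ _ he
        have hd1 : 0 < Module.finrank F W1.1 := by
          rw [Nat.pos_iff_ne_zero]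
          intro h0
          exact h1 (Submodule.finrank_eq_zero.1 h0)
        have hd2 : 0 < Module.finrank F W2.1 := by
          rw [Nat.pos_iff_ne_zero]
          intro h0
          exact h2 (Submodule.finrank_eq_zero.1 h0)
        have hco := hk W1.1 W2.1 α β hd1 hd2
        unfold CF.coprod at hco
        rw [div_eq_zero_iff] at hco
        have hcard : (Nat.card (W2.1 →ₗ[F] W1.1) : ℂ) ≠ 0 := by
          rw [Nat.cast_ne_zero]
          exact Nat.card_pos.ne'
        have hco' := hco.resolve_right hcard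
        haveI := Fintype.ofFinite (W2.1 →ₗ[F] W1.1)
        rw [finsum_eq_sum_of_fintype] at hco'
        have hterm : ∀ u : W2.1 →ₗ[F] W1.1, k (W2.1 × W1.1) (tri α β u) =
            if Split α β u then k (W2.1 × W1.1) (tri α β 0) else 0 := by
          intro u
          split_ifs with hs
          · exact split_value α β u k hs
          · apply ih _ _ _ (tri α β u) _ rfl
            · rw [← hhd]
              exact hd_lt α β u hs
            · have : Module.Finite F W1.1 := Module.Finite.of_finite
              have : Module.Finite F W2.1 := Module.Finite.of_finite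
              rw [Module.finrank_prod]
              omega
        rw [Finset.sum_congr rfl (fun u _ => hterm u), ← Finset.sum_filter, Finset.sum_const,
          nsmul_eq_mul, mul_eq_zero] at hco'
        rcases hco' with h0 | h0
        · exfalso
          rw [Nat.cast_eq_zero, Finset.card_eq_zero] at h0
          have h3 : (0 : W2.1 →ₗ[F] W1.1) ∈ Finset.univ.filter
              (fun u : W2.1 →ₗ[F] W1.1 => Split α β u) := by
            rw [Finset.mem_filter]
            refine ⟨Finset.mem_univ _, 0, ?_⟩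
            intro b
            simp
          rw [h0] at h3
          exact absurd h3 (Finset.notMem_empty _)
        · rw [hkg, h0]
  exact main _ V g hV rfl

end Pool.Agent.REll
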