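import Pool.Agent.Lib_helper45.REll.Defs2

/-! # Associativity of the Hall product -/

open scoped BigOperators ComplexConjugate
open Polynomial

namespace Pool.Agent.REll
variable {F : Type} [Field F]

section
variable {V : Type} [AddCommGroup V] [Module F V] [Finite V]

theorem Stab.mem {g : V ≃ₗ[F] V} (W : Stab g) {v : V} (hv : v ∈ W.1) : g v ∈ W.1 := by
  have h := W.2
  have h2 : g v ∈ W.1.map (g : V →ₗ[F] V) := ⟨v, hv, rfl⟩
  rwa [h] at h2

/-- a finite space mapped into itself is mapped onto itself -/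
theorem map_eq_of_le (g : V ≃ₗ[F] V) (W : Submodule F V) (h : ∀ v ∈ W, g v ∈ W) :
    W.map (g : V →ₗ[F] V) = W := by
  have : Module.Finite F V := Module.Finite.of_finite
  apply Submodule.eq_of_le_of_finrank_eq
  · rintro _ ⟨v, hv, rfl⟩
    exact h v hv
  · exact LinearEquiv.finrank_map_eq g W

/-- constructor of stable subspaces -/
def Stab.mk' (g : V ≃ₗ[F] V) (W : Submodule F V) (h : ∀ v ∈ W, g v ∈ W) : Stab g :=
  ⟨W, map_eq_of_le g W h⟩

end

section
variable {V : Type} [AddCommGroup V] [Module F V] [Finite V] (g : V ≃ₗ[F] V)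

/-- flags `U ≤ W ≤ V`, first description -/
noncomputable def flag1 (p : Σ W : Stab g, Stab (sub g W)) : Σ U : Stab g, Stab (quo g U) :=
  ⟨Stab.mk' g (p.2.1.map p.1.1.subtype) (by
    rintro _ ⟨w, hw, rfl⟩
    exact ⟨sub g p.1 w, p.2.mem hw, rfl⟩),
   Stab.mk' _ (p.1.1.map (Submodule.mkQ _)) (by
    rintro _ ⟨w, hw, rfl⟩
    exact ⟨g w, p.1.mem hw, rfl⟩)⟩

theorem flag1_fst (p : Σ W : Stab g, Stab (sub g W)) :
    (flag1 g p).1.1 = p.2.1.map p.1.1.subtype := rfl

theorem comap_map_aux {M : Type} [AddCommGroup M] [Module F M] (U W : Submodule F M)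
    (h : U ≤ W) : (W.map (Submodule.mkQ U)).comap (Submodule.mkQ U) = W := by
  rw [Submodule.comap_map_mkQ]
  exact sup_eq_right.2 h

theorem flag1_snd (p : Σ W : Stab g, Stab (sub g W)) :
    (flag1 g p).2.1.comap (Submodule.mkQ (flag1 g p).1.1) = p.1.1 :=
  comap_map_aux (p.2.1.map p.1.1.subtype) p.1.1 (Submodule.map_subtype_le _ _)

theorem flag_ext (x y : Σ U : Stab g, Stab (quo g U)) (h1 : x.1.1 = y.1.1)
    (h2 : x.2.1.comap (Submodule.mkQ x.1.1) = y.2.1.comap (Submodule.mkQ y.1.1)) : x = y := by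
  obtain ⟨U, Y⟩ := x
  obtain ⟨U', Y'⟩ := y
  have h3 : U = U' := Subtype.ext h1
  subst h3
  have h5 : Y = Y' := by
    apply Subtype.ext
    exact Submodule.comap_injective_of_surjective (Submodule.mkQ_surjective U.1) h2
  rw [h5]

theorem flag1_bij : Function.Bijective (flag1 g) := by
  constructor
  · rintro p p' h
    have h1 : p.2.1.map p.1.1.subtype = p'.2.1.map p'.1.1.subtype := by
      rw [← flag1_fst, ← flag1_fst, h]
    have h2 : p.1.1 = p'.1.1 := by
      rw [← flag1_snd, ← flag1_snd, h]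
    obtain ⟨W, U⟩ := p
    obtain ⟨W', U'⟩ := p'
    have h3 : W = W' := Subtype.ext h2
    subst h3
    have h4 : U = U' := Subtype.ext (Submodule.map_injective_of_injective W.1.injective_subtype h1)
    rw [h4]
  · rintro ⟨U, Y⟩
    have hle : U.1 ≤ Y.1.comap (Submodule.mkQ U.1) := by
      intro u hu
      show Submodule.mkQ U.1 u ∈ Y.1
      rw [Submodule.mkQ_apply, (Submodule.Quotient.mk_eq_zero U.1).2 hu]
      exact Y.1.zero_mem
    have h1 : (U.1.comap (Y.1.comap (Submodule.mkQ U.1)).subtype).map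
        (Y.1.comap (Submodule.mkQ U.1)).subtype = U.1 := by
      rw [Submodule.map_comap_subtype]
      exact inf_eq_right.2 hle
    have hW : ∀ v ∈ Y.1.comap (Submodule.mkQ U.1), g v ∈ Y.1.comap (Submodule.mkQ U.1) := by
      intro v hv
      exact Y.mem hv
    have hU : ∀ v ∈ U.1.comap (Y.1.comap (Submodule.mkQ U.1)).subtype,
        sub g (Stab.mk' g _ hW) v ∈ U.1.comap (Y.1.comap (Submodule.mkQ U.1)).subtype := by
      intro v hv
      exact U.mem hv
    refine ⟨⟨Stab.mk' g _ hW, Stab.mk' _ _ hU⟩, ?_⟩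
    apply flag_ext
    · rw [flag1_fst]
      exact h1
    · rw [flag1_snd]
      rfl

end

namespace CF

theorem hall_assoc (f h k : CF F) : f * h * k = f * (h * k) := by
  classical
  ext V _ _ _ g
  haveI := Fintype.ofFinite (Stab g)
  haveI : ∀ W : Stab g, Fintype (Stab (sub g W)) := fun W => Fintype.ofFinite _
  haveI : ∀ U : Stab g, Fintype (Stab (quo g U)) := fun W => Fintype.ofFinite _
  have h1 : (f * h * k) V g = ∑ p : (Σ W : Stab g, Stab (sub g W)),
      f p.2.1 (sub (sub g p.1) p.2) * h (p.1.1 ⧸ p.2.1) (quo (sub g p.1) p.2)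
        * k (V ⧸ p.1.1) (quo g p.1) := by
    rw [mul_apply, finsum_eq_sum_of_fintype, Fintype.sum_sigma]
    refine Finset.sum_congr rfl fun W _ => ?_
    rw [mul_apply, finsum_eq_sum_of_fintype, Finset.sum_mul]
  have h2 : (f * (h * k)) V g = ∑ p : (Σ U : Stab g, Stab (quo g U)),
      f p.1.1 (sub g p.1) * (h p.2.1 (sub (quo g p.1) p.2)
        * k ((V ⧸ p.1.1) ⧸ p.2.1) (quo (quo g p.1) p.2)) := by
    rw [mul_apply, finsum_eq_sum_of_fintype, Fintype.sum_sigma]
    refine Finset.sum_congr rfl fun W _ => ?_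
    rw [mul_apply, finsum_eq_sum_of_fintype, Finset.mul_sum]
  rw [h1, h2]
  refine Fintype.sum_bijective (flag1 g) (flag1_bij g) _ _ ?_
  rintro ⟨W, U⟩
  have e1 : f U.1 (sub (sub g W) U) = f (flag1 g ⟨W, U⟩).1.1 (sub g (flag1 g ⟨W, U⟩).1) := by
    apply f.inv' _ _ (Submodule.equivSubtypeMap W.1 U.1)
    intro v
    rfl
  have e2 : k (V ⧸ W.1) (quo g W) = k ((V ⧸ (flag1 g ⟨W, U⟩).1.1) ⧸ (flag1 g ⟨W, U⟩).2.1)
      (quo (quo g (flag1 g ⟨W, U⟩).1) (flag1 g ⟨W, U⟩).2) := by
    symm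
    apply k.inv' _ _ (Submodule.quotientQuotientEquivQuotient (U.1.map W.1.subtype) W.1
      (Submodule.map_subtype_le _ _))
    intro v
    obtain ⟨v, rfl⟩ := Submodule.Quotient.mk_surjective _ v
    obtain ⟨v, rfl⟩ := Submodule.Quotient.mk_surjective _ v
    rfl
  have hker : LinearMap.ker ((Submodule.mkQ (U.1.map W.1.subtype)) ∘ₗ W.1.subtype) = U.1 := by
    rw [LinearMap.ker_comp, Submodule.ker_mkQ]
    exact Submodule.comap_map_eq_of_injective W.1.injective_subtype U.1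
  have hrange : LinearMap.range ((Submodule.mkQ (U.1.map W.1.subtype)) ∘ₗ W.1.subtype) =
      (flag1 g ⟨W, U⟩).2.1 := by
    rw [LinearMap.range_comp, Submodule.range_subtype]
    rfl
  have e3 : h (W.1 ⧸ U.1) (quo (sub g W) U) = h (flag1 g ⟨W, U⟩).2.1
      (sub (quo g (flag1 g ⟨W, U⟩).1) (flag1 g ⟨W, U⟩).2) := by
    apply h.inv' _ _ (((Submodule.quotEquivOfEq _ _ hker.symm).trans
      (LinearMap.quotKerEquivRange _)).trans (LinearEquiv.ofEq _ _ hrange))
    intro v
    obtain ⟨v, rfl⟩ := Submodule.Quotient.mk_surjective _ v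
    rfl
  rw [mul_assoc]
  show f U.1 (sub (sub g W) U) * (h (W.1 ⧸ U.1) (quo (sub g W) U) * k (V ⧸ W.1) (quo g W)) = _
  rw [e1, e2, e3]

end CF
end Pool.Agent.REll
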